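import Mathlib

/-!
# Real roots of `det (L + x C)` for positive semidefinite `L`, `C`
-/

set_option autoImplicit false

namespace TD

open Matrix Polynomial

variable {n : Type*} [Fintype n] [DecidableEq n]

/-- The polynomial `det (L + X C)`. -/
private noncomputable def dp (L C : Matrix n n ℝ) : ℝ[X] :=
  (L.map Polynomial.C + (Polynomial.X : ℝ[X]) • C.map Polynomial.C).det

private theorem eval_dp (L C : Matrix n n ℝ) (x : ℝ) : (dp L C).eval x = (L + x • C).det := by
  unfold dp
  rw [← Polynomial.coe_evalRingHom, RingHom.map_det]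
  congr 1
  ext i j
  simp [Matrix.map_apply]
  ring

private theorem aeval_dp (L C : Matrix n n ℝ) (z : ℂ) :
    (dp L C).eval₂ Complex.ofRealHom z =
      (L.map (fun r : ℝ => (r : ℂ)) + z • C.map (fun r : ℝ => (r : ℂ))).det := by
  unfold dp
  rw [← Polynomial.coe_eval₂RingHom, RingHom.map_det]
  congr 1
  ext i j
  simp [Matrix.map_apply]
  ring

omit [DecidableEq n] in
private theorem quad_split (L : Matrix n n ℝ) (hL : L.IsHermitian) (v : n → ℂ) :
    star v ⬝ᵥ (L.map (fun r : ℝ => (r : ℂ)) *ᵥ v) =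
      (((fun i => (v i).re) ⬝ᵥ (L *ᵥ fun i => (v i).re) +
        (fun i => (v i).im) ⬝ᵥ (L *ᵥ fun i => (v i).im) : ℝ) : ℂ) := by
  have hsym : ∀ i j, L i j = L j i := by
    intro i j
    have := hL.apply j i
    simpa using this
  have h1 : star v ⬝ᵥ (L.map (fun r : ℝ => (r : ℂ)) *ᵥ v) =
      ∑ i, ∑ j, (star (v i)) * ((L i j : ℂ) * v j) := by
    simp [dotProduct, mulVec, Finset.mul_sum]
  have h2 : (((fun i => (v i).re) ⬝ᵥ (L *ᵥ fun i => (v i).re) +
        (fun i => (v i).im) ⬝ᵥ (L *ᵥ fun i => (v i).im) : ℝ) : ℂ) =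
      ∑ i, ∑ j, ((((v i).re * (L i j * (v j).re) + (v i).im * (L i j * (v j).im) : ℝ)) : ℂ) := by
    simp only [dotProduct, mulVec, Finset.mul_sum, ← Finset.sum_add_distrib]
    push_cast
    rfl
  rw [h1, h2]
  have h3 : ∑ i, ∑ j, ((star (v i)) * ((L i j : ℂ) * v j) -
      ((((v i).re * (L i j * (v j).re) + (v i).im * (L i j * (v j).im) : ℝ)) : ℂ)) =
      ∑ i, ∑ j, (((v i).re * (L i j) * (v j).im - (v i).im * (L i j) * (v j).re : ℝ) : ℂ) *
        Complex.I := by
    refine Finset.sum_congr rfl fun i _ => Finset.sum_congr rfl fun j _ => ?_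
    apply Complex.ext
    · simp
      try ring
    · simp
      try ring
  have h4 : ∑ i, ∑ j, (((v i).re * (L i j) * (v j).im - (v i).im * (L i j) * (v j).re : ℝ) : ℂ) *
        Complex.I = 0 := by
    simp only [← Finset.sum_mul]
    have : (∑ i, ∑ j, (((v i).re * (L i j) * (v j).im - (v i).im * (L i j) * (v j).re : ℝ) : ℂ))
        = 0 := by
      have hr : (∑ i, ∑ j, ((v i).re * (L i j) * (v j).im - (v i).im * (L i j) * (v j).re)) = 0 := by
        simp only [Finset.sum_sub_distrib]
        rw [sub_eq_zero, Finset.sum_comm]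
        refine Finset.sum_congr rfl fun i _ => Finset.sum_congr rfl fun j _ => ?_
        rw [hsym j i]; ring
      exact_mod_cast congrArg (fun r : ℝ => (r : ℂ)) hr
    rw [this, zero_mul]
  have h5 := h3.trans h4
  simp only [Finset.sum_sub_distrib] at h5
  exact sub_eq_zero.mp h5

omit [DecidableEq n] in
private theorem psd_zero (L : Matrix n n ℝ) (hL : L.PosSemidef) (a : n → ℝ)
    (h : a ⬝ᵥ (L *ᵥ a) = 0) : L *ᵥ a = 0 := by
  have := (hL.dotProduct_mulVec_zero_iff a).mp (by simpa using h)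
  exact this

omit [DecidableEq n] in
private theorem psd_nonneg (L : Matrix n n ℝ) (hL : L.PosSemidef) (a : n → ℝ) :
    0 ≤ a ⬝ᵥ (L *ᵥ a) := by
  have := hL.dotProduct_mulVec_nonneg a
  simpa using this

/-- All roots of `det (L + x C)` are real, `L`, `C` positive semidefinite; here for a cubic without
constant term. -/
theorem real_root (L C : Matrix n n ℝ) (hL : L.PosSemidef) (hC : C.PosSemidef) (c1 c2 c3 : ℝ)
    (h : ∀ x : ℝ, (L + x • C).det = c1 * x + c2 * x ^ 2 + c3 * x ^ 3) :
    4 * c1 * c3 ≤ c2 ^ 2 := by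
  by_contra hlt
  push Not at hlt
  have hc3 : c3 ≠ 0 := by
    rintro rfl
    nlinarith [sq_nonneg c2]
  have hp : dp L C = Polynomial.C c1 * Polynomial.X + Polynomial.C c2 * Polynomial.X ^ 2 +
      Polynomial.C c3 * Polynomial.X ^ 3 := by
    apply Polynomial.funext
    intro x
    rw [eval_dp, h x]
    simp
  set s : ℝ := Real.sqrt (4 * c1 * c3 - c2 ^ 2) with hs
  have hspos : 0 < s := Real.sqrt_pos.mpr (by linarith)
  have hs2 : s ^ 2 = 4 * c1 * c3 - c2 ^ 2 := Real.sq_sqrt (by linarith)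
  set z : ℂ := ⟨-c2 / (2 * c3), s / (2 * c3)⟩ with hz
  have hzim : z.im ≠ 0 := by
    simp only [hz]
    exact div_ne_zero hspos.ne' (mul_ne_zero two_ne_zero hc3)
  have hroot : (c1 : ℂ) + c2 * z + c3 * z ^ 2 = 0 := by
    apply Complex.ext
    · simp only [hz, pow_two, Complex.add_re, Complex.mul_re, Complex.ofReal_re, Complex.ofReal_im,
        Complex.mul_im, Complex.zero_re]
      have key : c1 + (c2 * (-c2 / (2 * c3)) - 0 * (s / (2 * c3))) +
          (c3 * (-c2 / (2 * c3) * (-c2 / (2 * c3)) - s / (2 * c3) * (s / (2 * c3))) -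
            0 * (-c2 / (2 * c3) * (s / (2 * c3)) + s / (2 * c3) * (-c2 / (2 * c3)))) =
          c1 - (c2 ^ 2 + s ^ 2) / (4 * c3) := by
        field_simp
        ring
      rw [key, hs2]
      field_simp
      ring
    · simp only [hz, pow_two, Complex.add_im, Complex.mul_re, Complex.ofReal_re, Complex.ofReal_im,
        Complex.mul_im, Complex.zero_im]
      field_simp
      ring
  have hdet : (L.map (fun r : ℝ => (r : ℂ)) + z • C.map (fun r : ℝ => (r : ℂ))).det = 0 := by
    rw [← aeval_dp, hp]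
    simp only [Polynomial.eval₂_add, Polynomial.eval₂_mul, Polynomial.eval₂_C, Polynomial.eval₂_X,
      Polynomial.eval₂_pow, Complex.ofRealHom_eq_coe]
    have : (c1 : ℂ) * z + c2 * z ^ 2 + c3 * z ^ 3 = z * (c1 + c2 * z + c3 * z ^ 2) := by ring
    rw [this, hroot, mul_zero]
  obtain ⟨v, hv0, hv⟩ := Matrix.exists_mulVec_eq_zero_iff.mpr hdet
  have hq : star v ⬝ᵥ ((L.map (fun r : ℝ => (r : ℂ)) + z • C.map (fun r : ℝ => (r : ℂ))) *ᵥ v)
      = 0 := by rw [hv]; simp
  rw [Matrix.add_mulVec, Matrix.smul_mulVec, dotProduct_add, dotProduct_smul,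
    quad_split L hL.1 v, quad_split C hC.1 v] at hq
  set a : n → ℝ := fun i => (v i).re with ha
  set b : n → ℝ := fun i => (v i).im with hb
  have hCa := psd_nonneg C hC a
  have hCb := psd_nonneg C hC b
  have hLa := psd_nonneg L hL a
  have hLb := psd_nonneg L hL b
  have him := congrArg Complex.im hq
  have hre := congrArg Complex.re hq
  simp only [Complex.add_im, Complex.ofReal_im, smul_eq_mul, Complex.mul_im, Complex.ofReal_re,
    Complex.zero_im, mul_zero, zero_add] at him
  simp only [Complex.add_re, Complex.ofReal_re, smul_eq_mul, Complex.mul_re, Complex.ofReal_im,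
    Complex.zero_re, mul_zero, sub_zero] at hre
  have hC0 : a ⬝ᵥ (C *ᵥ a) + b ⬝ᵥ (C *ᵥ b) = 0 := by
    rcases mul_eq_zero.mp him with h' | h'
    · exact absurd h' hzim
    · exact h'
  rw [hC0, mul_zero, add_zero] at hre
  have e1 : C *ᵥ a = 0 := psd_zero C hC a (by linarith)
  have e2 : C *ᵥ b = 0 := psd_zero C hC b (by linarith)
  have e3 : L *ᵥ a = 0 := psd_zero L hL a (by linarith)
  have e4 : L *ᵥ b = 0 := psd_zero L hL b (by linarith)
  have hab : a ≠ 0 ∨ b ≠ 0 := by
    by_contra hcon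
    push Not at hcon
    apply hv0
    funext i
    apply Complex.ext
    · exact congrFun hcon.1 i
    · exact congrFun hcon.2 i
  have hall : ∀ x : ℝ, (L + x • C).det = 0 := by
    intro x
    rw [← Matrix.exists_mulVec_eq_zero_iff]
    rcases hab with h' | h'
    · exact ⟨a, h', by rw [Matrix.add_mulVec, Matrix.smul_mulVec, e1, e3]; simp⟩
    · exact ⟨b, h', by rw [Matrix.add_mulVec, Matrix.smul_mulVec, e2, e4]; simp⟩
  have g1 := (h 1).symm.trans (hall 1)
  have g2 := (h (-1)).symm.trans (hall (-1))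
  have g3 := (h 2).symm.trans (hall 2)
  apply hc3
  linarith

end TD
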